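import Pool.Agent.Helper51.LPS.St

/-!
# Project LPS (MP_26ac92_gt), module ZEROL: the support function near the great sphere
-/

set_option autoImplicit false

namespace Pool.Agent.Helper85.LPS

open MeasureTheory Pool.Helper51.PSB Pool.Helper51.LPS

private theorem ZL_haar (k : ℕ) :
    (Measure.hausdorffMeasure ((k : ℝ) + 2) : Measure (V k)).IsAddHaarMeasure := by
  have h : ((k : ℝ) + 2) = ((Module.finrank ℝ (V k) : ℕ) : ℝ) := by
    simp [V]
  rw [h]
  infer_instance

private theorem ZL_pos {k : ℕ} {K : Set (W k)} (h0 : (0 : W k) ∈ interior K) (u : W k)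
    (hu : ‖u‖ = 1) (v : ℝ) (h : IsLUB ((fun x => (inner ℝ x u : ℝ)) '' K) v) : 0 < v := by
  obtain ⟨ε, hε, hball⟩ := Metric.isOpen_iff.1 isOpen_interior 0 h0
  have h1 : ((ε / 2) • u) ∈ K := by
    apply interior_subset
    apply hball
    rw [Metric.mem_ball, dist_zero_right, norm_smul, hu, Real.norm_eq_abs,
      abs_of_pos (by linarith)]
    linarith
  have h2 : (inner ℝ ((ε / 2) • u) u : ℝ) ≤ v := h.1 ⟨_, h1, rfl⟩
  rw [real_inner_smul_left, real_inner_self_eq_norm_sq, hu] at h2
  linarith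

private theorem ZL_neg {k a : ℕ} (P : MvPolynomial (Fin (k + 3)) ℝ) (hP : P.IsHomogeneous a)
    (ha : Odd a) (u : Fin (k + 3) → ℝ) :
    MvPolynomial.eval (fun l => - u l) P = - MvPolynomial.eval u P := by
  rw [MvPolynomial.eval_eq', MvPolynomial.eval_eq', ← Finset.sum_neg_distrib]
  apply Finset.sum_congr rfl
  intro m hm
  have h1 : ∑ i, m i = a := by
    have h2 := hP (MvPolynomial.mem_support_iff.1 hm)
    rw [← h2, Finsupp.weight_apply, Finsupp.sum_fintype _ _ (by simp)]
    simp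
  have h3 : ∏ i, (- u i) ^ m i = - ∏ i, u i ^ m i := by
    have h4 : ∀ i, (- u i) ^ m i = (-1) ^ m i * u i ^ m i := fun i => neg_pow _ _
    rw [Finset.prod_congr rfl (fun i _ => h4 i), Finset.prod_mul_distrib,
      Finset.prod_pow_eq_pow_sum, h1, ha.neg_one_pow]
    ring
  rw [h3]
  ring

private theorem ZL_lin {n : ℕ} (P : MvPolynomial (Fin n) ℝ)
    (h1 : P ∈ Submodule.span ℝ (Set.range (MvPolynomial.X : Fin n → MvPolynomial (Fin n) ℝ))) :
    ∃ c : EuclideanSpace ℝ (Fin n), ∀ u : EuclideanSpace ℝ (Fin n),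
      MvPolynomial.eval (fun l => u l) P = (inner ℝ c u : ℝ) := by
  induction h1 using Submodule.span_induction with
  | mem x hx =>
    obtain ⟨i, rfl⟩ := hx
    refine ⟨EuclideanSpace.single i 1, fun u => ?_⟩
    rw [EuclideanSpace.inner_single_left]
    simp
  | zero => exact ⟨0, fun u => by simp⟩
  | add x y _ _ hx hy =>
    obtain ⟨c, hc⟩ := hx
    obtain ⟨d, hd⟩ := hy
    exact ⟨c + d, fun u => by rw [map_add, hc, hd, inner_add_left]⟩
  | smul a x _ hx =>
    obtain ⟨c, hc⟩ := hx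
    exact ⟨a • c, fun u => by rw [MvPolynomial.smul_eval, hc, real_inner_smul_left]⟩

private theorem ZL_const {n : ℕ} (Q : MvPolynomial (Fin n) ℝ) (h : Q.IsHomogeneous 0) :
    ∃ r : ℝ, ∀ u : Fin n → ℝ, MvPolynomial.eval u Q = r := by
  rw [← MvPolynomial.totalDegree_zero_iff_isHomogeneous,
    MvPolynomial.totalDegree_eq_zero_iff_eq_C] at h
  refine ⟨MvPolynomial.coeff 0 Q, fun u => ?_⟩
  rw [h]
  simp

private theorem ZL_inner {n : ℕ} (v e : EuclideanSpace ℝ (Fin n)) :
    (inner ℝ v e : ℝ) = ∑ l, v l * e l := by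
  rw [PiLp.inner_apply]
  apply Finset.sum_congr rfl
  intro l _
  simp [mul_comm]

private theorem ZL_sq {n : ℕ} (u : EuclideanSpace ℝ (Fin n)) (hu : ‖u‖ = 1) :
    ∑ l, (u l) ^ 2 = 1 := by
  have h2 := EuclideanSpace.norm_sq_eq u
  rw [hu] at h2
  simp only [Real.norm_eq_abs, sq_abs] at h2
  linarith

private theorem ZL_orth {k : ℕ} (e : W k) : ∃ v : W k, ‖v‖ = 1 ∧ (inner ℝ v e : ℝ) = 0 := by
  have h : ∃ v : W k, v ≠ 0 ∧ (inner ℝ v e : ℝ) = 0 := by
    by_cases h0 : e 0 = 0
    · refine ⟨EuclideanSpace.single 0 1, ?_, ?_⟩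
      · intro h
        have : ‖(EuclideanSpace.single 0 (1 : ℝ) : W k)‖ = 0 := by rw [h, norm_zero]
        simp at this
      · rw [EuclideanSpace.inner_single_left]
        simp [h0]
    · refine ⟨(e 1) • EuclideanSpace.single 0 1 - (e 0) • EuclideanSpace.single 1 1, ?_, ?_⟩
      · intro h
        have h1 : ((e 1) • (EuclideanSpace.single 0 1 : W k) -
          (e 0) • (EuclideanSpace.single 1 1 : W k)) 1 = 0 := by rw [h]; rfl
        simp at h1
        exact h0 h1
      · rw [inner_sub_left, real_inner_smul_left, real_inner_smul_left,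
          EuclideanSpace.inner_single_left, EuclideanSpace.inner_single_left]
        simp
        ring
  obtain ⟨v, hv, hve⟩ := h
  have hn : 0 < ‖v‖ := norm_pos_iff.2 hv
  refine ⟨‖v‖⁻¹ • v, ?_, ?_⟩
  · rw [norm_smul, norm_inv, norm_norm, inv_mul_cancel₀ hn.ne']
  · rw [real_inner_smul_left, hve, mul_zero]

theorem hZeroL : StConstL → StExt → StAlgR → StBand → StFrO → StZeroL := by
  intro hConstL hExt hAlgR hBand hFrO k K p A e ε hcv hcp h0 he hε hsup hA
  obtain ⟨a, b, P, Q, ha, hb, hP, hQ, hpPQ, hP3, hQ2⟩ := qMin k p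
  have hsup' : ∀ u : W k, ‖u‖ = 1 → |(inner ℝ u e : ℝ)| < ε →
      IsLUB ((fun x => (inner ℝ x u : ℝ)) '' K)
      (MvPolynomial.eval (fun l => u l) P + MvPolynomial.eval (fun l => u l) Q) := by
    intro u hu hue
    rw [← hpPQ (fun l => u l) (ZL_sq u hu)]
    exact hsup u hu hue
  have hf : ∑ l, (e l) ^ 2 = 1 := ZL_sq e he
  have hcore : ∀ e1 : Fin (k + 3) → ℝ, ∑ l, e1 l ^ 2 = 1 → ∑ l, e1 l * e l = 0 →
      (a < b → MvPolynomial.aeval (fun l => ((e1 l : ℂ) - Complex.I * (e l : ℂ)) / 2) Q = 0) ∧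
      (b < a → 3 ≤ a → MvPolynomial.aeval (fun l => ((e1 l : ℂ) - Complex.I * (e l : ℂ)) / 2) P *
        MvPolynomial.aeval (fun l => ((e1 l : ℂ) - Complex.I * (e l : ℂ)) / 2) Q = 0) := by
    intro e1 he1 he1f
    obtain ⟨w, hw0, hw1, hi1, hw⟩ := hFrO k e1 (fun l => e l) he1 hf he1f
    have h11 : ∑ l, w 1 l ^ 2 = 1 := by rw [hw1]; exact hf
    have h01 : ∑ l, w 0 l * w 1 l = 0 := by rw [hw0, hw1]; exact he1f
    have hnu : nu w = fun l => ((e1 l : ℂ) - Complex.I * (e l : ℂ)) / 2 := by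
      funext l
      simp [nu, hw0, hw1]
    have hloc : ∀ φ : ℝ, |φ| < ε →
        ∫ y in Metric.ball 0 1, (Mat a P (frame w φ) (hat y) + Mat b Q (frame w φ) (hat y)).det
          ∂(Measure.hausdorffMeasure ((k : ℝ) + 2) : Measure (V k)) = A.toReal := by
      intro φ hφ
      obtain ⟨J, u, hu, hJ, hJf⟩ := hw φ
      refine hConstL k a b K P Q A hcv hcp h0 hP hQ w φ J u hu hJ hJf ?_ (hA u hu)
      intro v hv hvu
      refine hsup' v hv ?_
      have h1 := hBand k w φ J u hu hJ hJf h11 h01 hi1 v hv hvu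
      rw [hw1] at h1
      rw [ZL_inner]
      exact lt_of_le_of_lt h1 hφ
    have hall := hExt k a b (Measure.hausdorffMeasure ((k : ℝ) + 2) : Measure (V k)) P Q w
      A.toReal ε (ZL_haar k) hP hQ hε hloc
    have h := qCore k a b (Measure.hausdorffMeasure ((k : ℝ) + 2) : Measure (V k)) P Q w A.toReal
      (ZL_haar k) hP hQ ha hb hall
    rw [hnu] at h
    exact h
  obtain ⟨a', ha'⟩ := ha
  obtain ⟨b', hb'⟩ := hb
  have ha1 : Odd a := ⟨a', ha'⟩
  rcases lt_trichotomy a b with hab | hab | hab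
  · exfalso
    exact hQ2 (by omega) (hAlgR k b Q hQ (fun l => e l) hf
      (fun e1 he1 hef => (hcore e1 he1 hef).1 hab))
  · omega
  · by_cases h3 : 3 ≤ a
    · exfalso
      have hd : qf k ∣ P * Q := hAlgR k (a + b) (P * Q) (hP.mul hQ) (fun l => e l) hf
        (fun e1 he1 hef => by
          rw [map_mul]
          exact (hcore e1 he1 hef).2 hab h3)
      rcases (qAlgPrime k).dvd_or_dvd hd with h | h
      · exact hP3 h3 h
      · by_cases hb2 : 2 ≤ b
        · exact hQ2 hb2 h
        · have hb0 : b = 0 := by omega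
          subst hb0
          have hQC : Q = MvPolynomial.C (MvPolynomial.coeff 0 Q) := by
            rw [← MvPolynomial.totalDegree_eq_zero_iff_eq_C]
            exact Nat.le_zero.1 hQ.totalDegree_le
          have hc : MvPolynomial.coeff 0 Q = 0 := by
            by_contra hne
            apply (qAlgPrime k).not_isUnit
            apply isUnit_of_dvd_unit h
            rw [hQC]
            exact (isUnit_iff_ne_zero.2 hne).map MvPolynomial.C
          have hQ0 : Q = 0 := by rw [hQC, hc, MvPolynomial.C_0]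
          obtain ⟨v, hv, hve⟩ := ZL_orth e
          have e2 : ‖-v‖ = 1 := by rw [norm_neg]; exact hv
          have b1 : |(inner ℝ v e : ℝ)| < ε := by rw [hve, abs_zero]; exact hε
          have b2 : |(inner ℝ (-v) e : ℝ)| < ε := by
            rw [inner_neg_left, hve, neg_zero, abs_zero]; exact hε
          have p1 := ZL_pos h0 _ hv _ (hsup' _ hv b1)
          have p2 := ZL_pos h0 _ e2 _ (hsup' _ e2 b2)
          rw [hQ0, map_zero, add_zero] at p1 p2
          have h5 := ZL_neg P hP ha1 (fun l => v l)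
          have h6 : MvPolynomial.eval (fun l => (-v) l) P
            = - MvPolynomial.eval (fun l => v l) P := by
            rw [← h5]; rfl
          rw [h6] at p2
          linarith
    · have ha0 : a = 1 := by omega
      have hb0 : b = 0 := by omega
      subst ha0
      subst hb0
      obtain ⟨c, hc⟩ := ZL_lin P (by
        rw [← MvPolynomial.homogeneousSubmodule_one_eq_span_X]
        exact hP)
      obtain ⟨r, hr⟩ := ZL_const Q hQ
      refine ⟨c, r, fun u hu hue => ?_⟩
      have h := hsup' u hu hue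
      rw [hc, hr] at h
      exact h

end Pool.Agent.Helper85.LPS
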